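import Mathlib

namespace Pool.Agent.Results.MP_0c0609_co.Iff

open Finset

/-- Vertices of `K_{1,m 0} + ... + K_{1,m (n-1)}`: `⟨i, none⟩` is the centre of the `i`-th star,
`⟨i, some l⟩` its leaves. -/
abbrev Vx {n : ℕ} (m : Fin n → ℕ) := Σ i : Fin n, Option (Fin (m i))

/-- The disjoint union of stars: a centre is adjacent to the leaves of its own star. -/
def stars {n : ℕ} (m : Fin n → ℕ) : SimpleGraph (Vx m) where
  Adj u v := u.1 = v.1 ∧ u.2.isNone ≠ v.2.isNone
  symm := ⟨fun _ _ h => ⟨h.1.symm, h.2.symm⟩⟩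
  loopless := ⟨fun _ h => h.2 rfl⟩

/-- Equitably `2`-choosable (colours are natural numbers). -/
def EqChoosable {V : Type} [Fintype V] (G : SimpleGraph V) : Prop :=
  ∀ L : V → Finset ℕ, (∀ v, (L v).card = 2) → ∃ c : V → ℕ, (∀ v, c v ∈ L v) ∧
    (∀ u v, G.Adj u v → c u ≠ c v) ∧
    ∀ col, (univ.filter fun v => c v = col).card ≤ ⌈(Fintype.card V : ℚ) / 2⌉₊

/-- The multisets `{m_1, ..., m_n}` of positive integers whose union of stars is equitably
`2`-choosable. -/
def Good (n : ℕ) : Set (Multiset ℕ) :=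
  {s | ∃ m : Fin n → ℕ, (∀ i, 1 ≤ m i) ∧ EqChoosable (stars m) ∧ s = univ.val.map m}

lemma ceil_eq (N : ℕ) : ⌈(N : ℚ) / 2⌉₊ = (N + 1) / 2 := by
  apply le_antisymm
  · rw [Nat.ceil_le, div_le_iff₀ (by norm_num)]
    exact_mod_cast (by omega : N ≤ (N + 1) / 2 * 2)
  · have := Nat.le_ceil ((N : ℚ) / 2)
    rw [div_le_iff₀ (by norm_num)] at this
    have : N ≤ ⌈(N : ℚ) / 2⌉₊ * 2 := by exact_mod_cast this
    omega

lemma card_Vx {n : ℕ} (m : Fin n → ℕ) : Fintype.card (Vx m) = ∑ i, (m i + 1) := by simp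

lemma count_eq {n : ℕ} (m : Fin n → ℕ) (p : Vx m → Prop) [DecidablePred p] :
    (univ.filter p).card = ∑ i, ((if p ⟨i, none⟩ then 1 else 0) +
      ∑ l, if p ⟨i, some l⟩ then 1 else 0) := by
  rw [card_filter, Fintype.sum_sigma]
  simp only [Fintype.sum_option]

lemma greedy {V : Type} [Fintype V] [DecidableEq V] (φ ψ : V → ℕ) (B : ℕ)
    (hB : Fintype.card V ≤ 2 * B)
    (h : ∀ col, (univ.filter fun v => φ v = col ∧ ψ v = col).card ≤ B) :
    ∃ c : V → ℕ, (∀ v, c v = φ v ∨ c v = ψ v) ∧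
      ∀ col, (univ.filter fun v => c v = col).card ≤ B := by
  have key : ∀ U : Finset V, ∃ c : V → ℕ, (∀ v, c v = φ v ∨ c v = ψ v) ∧
      ∀ col, (univ.filter fun v => (φ v = ψ v ∨ v ∈ U) ∧ c v = col).card ≤ B := by
    intro U
    induction U using Finset.induction_on with
    | empty =>
      refine ⟨φ, fun _ => Or.inl rfl, fun col => le_trans (card_le_card fun v => ?_) (h col)⟩
      simp only [mem_filter, mem_univ, true_and, notMem_empty, or_false]
      omega
    | insert w U hw ih =>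
      obtain ⟨c, h1, h2⟩ := ih
      by_cases hf : φ w = ψ w
      · refine ⟨c, h1, fun col => le_trans (card_le_card fun v => ?_) (h2 col)⟩
        simp only [mem_filter, mem_univ, true_and, mem_insert]
        rintro ⟨h | rfl | h, e⟩
        exacts [⟨Or.inl h, e⟩, ⟨Or.inl hf, e⟩, ⟨Or.inr h, e⟩]
      obtain ⟨y, hy, hlt⟩ : ∃ y, (y = φ w ∨ y = ψ w) ∧
          (univ.filter fun v => (φ v = ψ v ∨ v ∈ U) ∧ c v = y).card < B := by
        by_contra hc
        push Not at hc
        have a := hc _ (Or.inl rfl)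
        have b := hc _ (Or.inr rfl)
        have d := card_le_card (subset_erase (a := w) (t := univ).2
          ⟨subset_univ ((univ.filter fun v => (φ v = ψ v ∨ v ∈ U) ∧ c v = φ w) ∪
            (univ.filter fun v => (φ v = ψ v ∨ v ∈ U) ∧ c v = ψ w)), by simp [hf, hw]⟩)
        rw [card_union_of_disjoint (by
          rw [disjoint_filter]; intro v _ h1 h2; exact hf (h1.2.symm.trans h2.2)),
          card_erase_of_mem (mem_univ _), card_univ] at d
        have : 0 < Fintype.card V := Fintype.card_pos_iff.2 ⟨w⟩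
        omega
      refine ⟨Function.update c w y, fun v => ?_, fun col => ?_⟩
      · by_cases hv : v = w
        · subst hv; simpa using hy
        · simpa [hv] using h1 v
      · by_cases hcol : col = y
        · refine le_trans (card_le_card (t := insert w (univ.filter fun v =>
            (φ v = ψ v ∨ v ∈ U) ∧ c v = y)) fun v => ?_) ((card_insert_le _ _).trans hlt)
          by_cases hv : v = w <;> simp [hv, hcol]
        · refine le_trans (card_le_card fun v => ?_) (h2 col)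
          by_cases hv : v = w
          · simp [hv, Ne.symm hcol]
          · simp [hv]
  obtain ⟨c, h1, h2⟩ := key univ
  exact ⟨c, h1, fun col => by simpa using h2 col⟩

def Ty (M At Af Bt Bf : ℕ) : Prop :=
  (At ≤ 1 ∧ Bt ≤ M ∧ Af ≤ M ∧ Bf ≤ 1) ∨ (At = Af ∧ Bt = Bf ∧ 2 * (At + Bt) ≤ M + 1)

lemma arith (t a0 a0' b0 b0' a1 a1' b1 b1' a2 a2' b2 b2' a3 a3' b3 b3' a4 a4' b4 b4' : ℕ)
    (ht : 1 ≤ t) (h0 : Ty (2 * t) a0 a0' b0 b0') (h1 : Ty (2 * t) a1 a1' b1 b1')
    (h2 : Ty (3 * t) a2 a2' b2 b2') (h3 : Ty (3 * t) a3 a3' b3 b3')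
    (h4 : Ty (4 * t) a4 a4' b4 b4')
    (H : ∀ s0 s1 s2 s3 s4 : Bool,
      7 * t + 3 < cond s0 a0 a0' + cond s1 a1 a1' + cond s2 a2 a2' + cond s3 a3 a3' +
        cond s4 a4 a4' ∨
      7 * t + 3 < cond s0 b0 b0' + cond s1 b1 b1' + cond s2 b2 b2' + cond s3 b3 b3' +
        cond s4 b4 b4') : False := by
  rcases h0 with h0 | h0 <;> rcases h1 with h1 | h1 <;> rcases h2 with h2 | h2 <;>
    rcases h3 with h3 | h3 <;> rcases h4 with h4 | h4
  · have g0 := H false false false true true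
    simp only [cond_true, cond_false] at g0; omega
  · have g0 := H false true false true true
    simp only [cond_true, cond_false] at g0; omega
  · have g0 := H false true false true true; have g1 := H false true true true false
    simp only [cond_true, cond_false] at g0 g1; omega
  · have g0 := H false false true true true; have g1 := H false true true true true
    simp only [cond_true, cond_false] at g0 g1; omega
  · have g0 := H false true true false true; have g1 := H false true true true false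
    simp only [cond_true, cond_false] at g0 g1; omega
  · have g0 := H false false true true true; have g1 := H false true true true true
    simp only [cond_true, cond_false] at g0 g1; omega
  · have g0 := H false false true true true
    simp only [cond_true, cond_false] at g0; omega
  · have g0 := H false true true true true
    simp only [cond_true, cond_false] at g0; omega
  · have g0 := H false true true true false
    simp only [cond_true, cond_false] at g0; omega
  · have g0 := H false true false true true; have g1 := H false true true true true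
    simp only [cond_true, cond_false] at g0 g1; omega
  · have g0 := H false true false true true; have g1 := H true true false true true
    simp only [cond_true, cond_false] at g0 g1; omega
  · have g0 := H false true false true true; have g1 := H false true true true true
    simp only [cond_true, cond_false] at g0 g1; omega
  · have g0 := H false true true false true; have g1 := H true true true false true
    simp only [cond_true, cond_false] at g0 g1; omega
  · have g0 := H false true true false true; have g1 := H false true true true true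
    simp only [cond_true, cond_false] at g0 g1; omega
  · have g0 := H false true true true false; have g1 := H false true true true true
    simp only [cond_true, cond_false] at g0 g1; omega
  · have g0 := H false true true true true; have g1 := H true true true true true
    simp only [cond_true, cond_false] at g0 g1; omega
  · have g0 := H true false true true false
    simp only [cond_true, cond_false] at g0; omega
  · have g0 := H true false false true true; have g1 := H true false true true true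
    simp only [cond_true, cond_false] at g0 g1; omega
  · have g0 := H true false false true true; have g1 := H true true false true true
    simp only [cond_true, cond_false] at g0 g1; omega
  · have g0 := H true false false true true; have g1 := H true false true true true
    simp only [cond_true, cond_false] at g0 g1; omega
  · have g0 := H true false true false true; have g1 := H true true true false true
    simp only [cond_true, cond_false] at g0 g1; omega
  · have g0 := H true false true false true; have g1 := H true false true true true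
    simp only [cond_true, cond_false] at g0 g1; omega
  · have g0 := H true false true true false; have g1 := H true false true true true
    simp only [cond_true, cond_false] at g0 g1; omega
  · have g0 := H true false true true true; have g1 := H true true true true true
    simp only [cond_true, cond_false] at g0 g1; omega
  · have g0 := H true true false false true; have g1 := H true true true true false
    simp only [cond_true, cond_false] at g0 g1; omega
  · have g0 := H true true false true true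
    simp only [cond_true, cond_false] at g0; omega
  · have g0 := H true true false true true; have g1 := H true true true true false
    simp only [cond_true, cond_false] at g0 g1; omega
  · have g0 := H true true false true true; have g1 := H true true true true true
    simp only [cond_true, cond_false] at g0 g1; omega
  · have g0 := H true true true false true; have g1 := H true true true true false
    simp only [cond_true, cond_false] at g0 g1; omega
  · have g0 := H true true true false true; have g1 := H true true true true true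
    simp only [cond_true, cond_false] at g0 g1; omega
  · have g0 := H true true true true false; have g1 := H true true true true true
    simp only [cond_true, cond_false] at g0 g1; omega
  · have g0 := H true true true true true
    simp only [cond_true, cond_false] at g0; omega

section
variable {n : ℕ} {m : Fin n → ℕ} (p q : Vx m → ℕ)

/-- number of vertices of star `i` forced to colour `col` when the centre gets `y` -/
def f (i : Fin n) (y col : ℕ) : ℕ :=
  (if y = col then 1 else 0) + ∑ l, if (p ⟨i, some l⟩ = y ∧ q ⟨i, some l⟩ = col) ∨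
    (q ⟨i, some l⟩ = y ∧ p ⟨i, some l⟩ = col) then 1 else 0

variable {p q}

lemma sum_le_m {M : ℕ} (g : Fin M → ℕ) (h : ∀ l, g l ≤ 1) : ∑ l, g l ≤ M := by
  simpa using sum_le_card_nsmul univ g 1 fun l _ => h l

lemma f_self (hpq : ∀ v, p v ≠ q v) (i : Fin n) (g : ℕ) : f p q i g g = 1 := by
  rw [f, if_pos rfl, sum_eq_zero, add_zero]
  intro l _
  have := hpq ⟨i, some l⟩
  rw [if_neg]; omega

lemma f_le (hpq : ∀ v, p v ≠ q v) (i : Fin n) (hm : 1 ≤ m i) (y g : ℕ) : f p q i y g ≤ m i := by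
  by_cases h : y = g
  · rw [h, f_self hpq]; exact hm
  · rw [f, if_neg h, zero_add]
    exact sum_le_m _ fun l => by split_ifs <;> omega

lemma f_pair (i : Fin n) {y z g g' : ℕ} (hg : g ≠ g') (h1 : y ≠ g) (h2 : ¬ (y = g' ∧ z = g)) :
    f p q i y g + f p q i z g' ≤ m i + 1 := by
  rw [f, f, if_neg h1, zero_add, add_left_comm, ← sum_add_distrib]
  have := sum_le_m (fun l : Fin (m i) => (if (p ⟨i, some l⟩ = y ∧ q ⟨i, some l⟩ = g) ∨
    (q ⟨i, some l⟩ = y ∧ p ⟨i, some l⟩ = g) then 1 else 0) +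
    if (p ⟨i, some l⟩ = z ∧ q ⟨i, some l⟩ = g') ∨
    (q ⟨i, some l⟩ = z ∧ p ⟨i, some l⟩ = g') then 1 else 0) fun l => by split_ifs <;> omega
  split_ifs <;> omega

lemma f_four (hpq : ∀ v, p v ≠ q v) (i : Fin n) {y z a b : ℕ} (hab : a ≠ b) (hyz : y ≠ z)
    (h1 : ¬ (y = a ∧ z = b)) (h2 : ¬ (y = b ∧ z = a)) :
    f p q i y a + f p q i y b + (f p q i z a + f p q i z b) ≤ m i + 1 := by
  have := sum_le_m (fun l : Fin (m i) => ((if (p ⟨i, some l⟩ = y ∧ q ⟨i, some l⟩ = a) ∨
    (q ⟨i, some l⟩ = y ∧ p ⟨i, some l⟩ = a) then 1 else 0) +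
    if (p ⟨i, some l⟩ = y ∧ q ⟨i, some l⟩ = b) ∨
    (q ⟨i, some l⟩ = y ∧ p ⟨i, some l⟩ = b) then 1 else 0) +
    ((if (p ⟨i, some l⟩ = z ∧ q ⟨i, some l⟩ = a) ∨
    (q ⟨i, some l⟩ = z ∧ p ⟨i, some l⟩ = a) then 1 else 0) +
    if (p ⟨i, some l⟩ = z ∧ q ⟨i, some l⟩ = b) ∨
    (q ⟨i, some l⟩ = z ∧ p ⟨i, some l⟩ = b) then 1 else 0)) fun l => by
      have := hpq ⟨i, some l⟩
      split_ifs <;> omega
  simp only [sum_add_distrib] at this
  unfold f
  split_ifs <;> omega

lemma two_heavy (hpq : ∀ v, p v ≠ q v) (hm : ∀ i, 1 ≤ m i) (B : ℕ) (hB : ∑ i, (m i + 1) ≤ 2 * B)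
    (H : ∀ x : Fin n → ℕ, (∀ i, x i = p ⟨i, none⟩ ∨ x i = q ⟨i, none⟩) →
      ∃ g, B < ∑ i, f p q i (x i) g) :
    ∃ a b, a ≠ b ∧ ∀ x : Fin n → ℕ, (∀ i, x i = p ⟨i, none⟩ ∨ x i = q ⟨i, none⟩) →
      B < ∑ i, f p q i (x i) a ∨ B < ∑ i, f p q i (x i) b := by
  obtain ⟨Hv, hHv⟩ : ∃ Hv : ℕ → Prop, Hv = fun g => ∃ x : Fin n → ℕ,
    (∀ i, x i = p ⟨i, none⟩ ∨ x i = q ⟨i, none⟩) ∧ B < ∑ i, f p q i (x i) g := ⟨_, rfl⟩
  suffices S : ∃ a b, a ≠ b ∧ ∀ g, Hv g → g = a ∨ g = b by
    obtain ⟨a, b, hab, S⟩ := S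
    refine ⟨a, b, hab, fun x hx => ?_⟩
    obtain ⟨g, hg⟩ := H x hx
    rcases S g (by rw [hHv]; exact ⟨x, hx, hg⟩) with rfl | rfl
    exacts [Or.inl hg, Or.inr hg]
  by_contra hc
  push Not at hc
  obtain ⟨a, ha, -⟩ := hc 0 1 (by norm_num)
  obtain ⟨b, hb, hba, -⟩ := hc a (a + 1) (by omega)
  obtain ⟨c, hcc, hca, hcb⟩ := hc a b hba.symm
  obtain ⟨nx, hnx⟩ : ∃ nx : ℕ → ℕ, nx = fun g => if g = a then b else if g = b then c else a :=
    ⟨_, rfl⟩
  have n1 : ∀ g, Hv (nx g) := by intro g; rw [hnx]; simp only; split_ifs <;> assumption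
  have n2 : ∀ g, g ≠ nx g := by intro g; rw [hnx]; simp only; split_ifs <;> omega
  have n3 : ∀ g, g ≠ nx (nx g) := by intro g; rw [hnx]; simp only; split_ifs <;> omega
  obtain ⟨g, hg⟩ := H (fun i => if q ⟨i, none⟩ = nx (p ⟨i, none⟩) then p ⟨i, none⟩ else q ⟨i, none⟩)
    (fun i => by split_ifs <;> simp)
  have h1 := n1 g
  rw [hHv] at h1
  obtain ⟨z, hz, hz'⟩ := h1
  have : ∑ i, (f p q i (if q ⟨i, none⟩ = nx (p ⟨i, none⟩) then p ⟨i, none⟩ else q ⟨i, none⟩) g +
      f p q i (z i) (nx g)) ≤ ∑ i, (m i + 1) := by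
    refine sum_le_sum fun i _ => ?_
    by_cases e : (if q ⟨i, none⟩ = nx (p ⟨i, none⟩) then p ⟨i, none⟩ else q ⟨i, none⟩) = g
    · rw [e, f_self hpq]
      have := f_le hpq i (hm i) (z i) (nx g)
      omega
    · refine f_pair i (n2 g) e ?_
      rintro ⟨e1, e2⟩
      have := hz i
      have := n3 g
      split_ifs at e e1 with e3
      · rw [e1] at e3; omega
      · apply e3
        rw [e1]; congr 1; omega
  rw [sum_add_distrib] at this
  omega

lemma star_type (hpq : ∀ v, p v ≠ q v) (hm : ∀ i, 1 ≤ m i) {a b : ℕ} (hab : a ≠ b) (i : Fin n) :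
    ∃ u v, (u = p ⟨i, none⟩ ∨ u = q ⟨i, none⟩) ∧ (v = p ⟨i, none⟩ ∨ v = q ⟨i, none⟩) ∧
      Ty (m i) (f p q i u a) (f p q i v a) (f p q i u b) (f p q i v b) := by
  have T : Ty (m i) (f p q i a a) (f p q i b a) (f p q i a b) (f p q i b b) :=
    Or.inl ⟨(f_self hpq ..).le, f_le hpq i (hm i) .., f_le hpq i (hm i) .., (f_self hpq ..).le⟩
  by_cases h1 : p ⟨i, none⟩ = a ∧ q ⟨i, none⟩ = b
  · exact ⟨a, b, Or.inl h1.1.symm, Or.inr h1.2.symm, T⟩
  by_cases h2 : p ⟨i, none⟩ = b ∧ q ⟨i, none⟩ = a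
  · exact ⟨a, b, Or.inr h2.2.symm, Or.inl h2.1.symm, T⟩
  have := f_four hpq i hab (hpq ⟨i, none⟩) h1 h2
  rcases le_total (f p q i (p ⟨i, none⟩) a + f p q i (p ⟨i, none⟩) b)
    (f p q i (q ⟨i, none⟩) a + f p q i (q ⟨i, none⟩) b) with h | h
  · exact ⟨_, _, Or.inl rfl, Or.inl rfl, Or.inr ⟨rfl, rfl, by omega⟩⟩
  · exact ⟨_, _, Or.inr rfl, Or.inr rfl, Or.inr ⟨rfl, rfl, by omega⟩⟩

lemma colour (hpq : ∀ v, p v ≠ q v) (B : ℕ) (hB : ∑ i, (m i + 1) ≤ 2 * B) (x : Fin n → ℕ)
    (hx : ∀ i, x i = p ⟨i, none⟩ ∨ x i = q ⟨i, none⟩) (h : ∀ g, ∑ i, f p q i (x i) g ≤ B) :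
    ∃ c : Vx m → ℕ, (∀ v, c v = p v ∨ c v = q v) ∧ (∀ u v, (stars m).Adj u v → c u ≠ c v) ∧
      ∀ col, (univ.filter fun v => c v = col).card ≤ B := by
  classical
  obtain ⟨c, h1, h2⟩ := greedy
    (fun v : Vx m => if v.2.isNone then x v.1 else if p v = x v.1 then q v else p v)
    (fun v : Vx m => if v.2.isNone then x v.1 else if q v = x v.1 then p v else q v) B
    (by rw [card_Vx]; exact hB) (fun col => by
      refine le_trans (le_of_eq ?_) (h col)
      rw [count_eq]
      refine sum_congr rfl fun i _ => ?_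
      rw [f]
      congr 1
      · simp
      · refine sum_congr rfl fun l _ => ?_
        have := hpq ⟨i, some l⟩
        simp only [Option.isNone_some, Bool.false_eq_true, if_false]
        split_ifs <;> omega)
  have c1 : ∀ i, c ⟨i, none⟩ = x i := fun i => by simpa using h1 ⟨i, none⟩
  have c2 : ∀ i l, c ⟨i, some l⟩ ≠ x i ∧
      (c ⟨i, some l⟩ = p ⟨i, some l⟩ ∨ c ⟨i, some l⟩ = q ⟨i, some l⟩) := by
    intro i l
    have := h1 ⟨i, some l⟩
    have := hpq ⟨i, some l⟩
    simp only [Option.isNone_some, Bool.false_eq_true, if_false] at *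
    split_ifs at * <;> omega
  refine ⟨c, ?_, ?_, h2⟩
  · rintro ⟨i, _ | l⟩
    · rw [c1]; exact hx i
    · exact (c2 i l).2
  · rintro ⟨i, u⟩ ⟨j, v⟩ ⟨e, h⟩
    simp only at e h
    subst e
    rcases u with _ | u <;> rcases v with _ | v
    · simp at h
    · rw [c1]; exact (c2 i v).1.symm
    · rw [c1]; exact (c2 i u).1
    · simp at h

end

def ex (r t : ℕ) : Fin (r + 5) → ℕ :=
  Fin.cons (2 * t) (Fin.cons (2 * t) (Fin.cons (3 * t) (Fin.cons (3 * t) (Fin.cons (4 * t)
    fun _ => 1))))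

lemma ex_pos (r t : ℕ) (ht : 1 ≤ t) (i : Fin (r + 5)) : 1 ≤ ex r t i := by
  unfold ex
  iterate 5 (refine Fin.cases (by simp; omega) (fun i => ?_) i; simp only [Fin.cons_succ])
  rfl

lemma sum5 {r : ℕ} (g : Fin (r + 5) → ℕ) : ∑ i, g i = g 0 + g (Fin.succ 0) + g (Fin.succ 0).succ +
    g (Fin.succ 0).succ.succ + g (Fin.succ 0).succ.succ.succ +
    ∑ j : Fin r, g j.succ.succ.succ.succ.succ := by
  simp only [Fin.sum_univ_succ]; ring

lemma ex_sum (r t : ℕ) : ∑ i, ex r t i = 14 * t + r := by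
  rw [sum5]; simp only [ex, Fin.cons_succ, Fin.cons_zero]; simp; ring

lemma ex_good (r t : ℕ) (ht : 1 ≤ t) : EqChoosable (stars (ex r t)) := by
  intro L hL
  choose p q hpq hL using fun v => card_eq_two.1 (hL v)
  have hN : ∑ i, (ex r t i + 1) = 14 * t + 2 * r + 5 := by
    rw [sum_add_distrib, ex_sum]; simp; ring
  rw [card_Vx, ceil_eq, hN, show (14 * t + 2 * r + 5 + 1) / 2 = 7 * t + 3 + r by omega]
  suffices S : ∃ x : Fin (r + 5) → ℕ, (∀ i, x i = p ⟨i, none⟩ ∨ x i = q ⟨i, none⟩) ∧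
      ∀ g, ∑ i, f p q i (x i) g ≤ 7 * t + 3 + r by
    obtain ⟨x, hx, h⟩ := S
    obtain ⟨c, h1, h2, h3⟩ := colour hpq _ (by omega) x hx h
    exact ⟨c, fun v => by rw [hL]; simpa using h1 v, h2, h3⟩
  by_contra hc
  push Not at hc
  obtain ⟨a, b, hab, H⟩ := two_heavy hpq (ex_pos r t ht) _ (by omega) hc
  choose u v hu hv hT using star_type hpq (ex_pos r t ht) hab
  refine arith t _ _ _ _ _ _ _ _ _ _ _ _ _ _ _ _ _ _ _ _ ht (hT 0) (hT (Fin.succ 0))
    (hT (Fin.succ 0).succ) (hT (Fin.succ 0).succ.succ) (hT (Fin.succ 0).succ.succ.succ) ?_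
  intro s0 s1 s2 s3 s4
  obtain ⟨s, hs⟩ : ∃ s : Fin (r + 5) → Bool, s = Fin.cons s0 (Fin.cons s1 (Fin.cons s2
    (Fin.cons s3 (Fin.cons s4 fun _ => true)))) := ⟨_, rfl⟩
  have h1 := H (fun i => cond (s i) (u i) (v i)) (fun i => by
    cases s i
    exacts [hv i, hu i])
  have h2 : ∀ j : Fin r, f p q j.succ.succ.succ.succ.succ (u j.succ.succ.succ.succ.succ) a ≤ 1 ∧
      f p q j.succ.succ.succ.succ.succ (u j.succ.succ.succ.succ.succ) b ≤ 1 := by
    intro j
    have := hT j.succ.succ.succ.succ.succ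
    rw [show ex r t j.succ.succ.succ.succ.succ = 1 from rfl, Ty] at this
    omega
  have h3 := sum_le_m _ fun j => (h2 j).1
  have h4 := sum_le_m _ fun j => (h2 j).2
  rw [sum5, sum5] at h1
  simp only [hs, Fin.cons_succ, Fin.cons_zero, cond_true] at h1
  cases s0 <;> cases s1 <;> cases s2 <;> cases s3 <;> cases s4 <;>
    simp only [cond_true, cond_false] at h1 ⊢ <;> omega

def T (j i M : ℕ) (s : Bool) : ℕ := if i = j then M / 4 else if s then M else 0

lemma quarter (M r : ℕ) (hr : r < 4) : M / 4 ≤ ∑ l : Fin M, if l.val % 4 = r then 1 else 0 := by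
  rw [← card_filter]
  have := card_le_card_of_injOn (s := (univ : Finset (Fin (M / 4))))
    (t := univ.filter fun l : Fin M => l.val % 4 = r)
    (fun k => ⟨4 * k.val + r, by have := k.2; omega⟩) (fun k _ => by simp; omega)
    (fun a _ b _ h => by simp only [Fin.mk.injEq] at h; ext; omega)
  simpa using this

lemma adv {n : ℕ} {m : Fin n → ℕ} (h : EqChoosable (stars m)) (j : ℕ) :
    ∃ s : Fin n → Bool, ∑ i : Fin n, T j i (m i) (s i) ≤ (∑ i, (m i + 1) + 1) / 2 ∧
      ∑ i : Fin n, T j i (m i) (!s i) ≤ (∑ i, (m i + 1) + 1) / 2 := by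
  obtain ⟨c, h1, h2, h3⟩ := h (fun v => if v.1.val = j then
    (match v.2 with
      | none => {2, 3}
      | some l => {2 + l.val % 4 / 2, l.val % 2}) else {0, 1}) (by
    rintro ⟨i, _ | l⟩ <;> simp only <;> split_ifs <;> first | rfl | exact card_pair (by omega))
  rw [card_Vx, ceil_eq] at h3
  have key : ∀ col, col < 2 → ∑ i : Fin n, T j i (m i) (decide (c ⟨i, none⟩ ≠ col)) ≤
      (∑ i, (m i + 1) + 1) / 2 := by
    intro col hcol
    refine le_trans ?_ (h3 col)
    rw [count_eq]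
    refine sum_le_sum fun i _ => le_add_left ?_
    have a := h1 ⟨i, none⟩
    have b := fun l => h1 ⟨i, some l⟩
    have d : ∀ l, c ⟨i, none⟩ ≠ c ⟨i, some l⟩ := fun l => h2 _ _ ⟨rfl, by simp⟩
    unfold T
    split_ifs with e1 e2
    · simp only [e1, if_true, mem_insert, mem_singleton] at a b
      refine (quarter (m i) (2 * (c ⟨i, none⟩ - 2) + col) (by omega)).trans
        (sum_le_sum fun l _ => ?_)
      have := b l
      have := d l
      split_ifs <;> omega
    · simp only [e1, if_false, mem_insert, mem_singleton, decide_eq_true_eq] at a b e2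
      rw [sum_congr rfl (g := fun _ => 1)]
      · simp
      · intro l _
        have := b l
        have := d l
        rw [if_pos]; omega
    · exact Nat.zero_le _
  refine ⟨fun i => decide (c ⟨i, none⟩ ≠ 0), key 0 (by norm_num),
    le_trans (sum_le_sum fun i _ => ?_) (key 1 (by norm_num))⟩
  unfold T
  by_cases e : c ⟨i, none⟩ = 0 <;> by_cases e' : i.val = j <;> simp [e, e']

lemma three (a b c e B : ℕ) (s1 s2 s3 : Bool)
    (h1 : e + (if s1 then a else 0) + (if s2 then b else 0) + (if s3 then c else 0) ≤ B)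
    (h2 : e + (if !s1 then a else 0) + (if !s2 then b else 0) + (if !s3 then c else 0) ≤ B) :
    (e + a ≤ B ∧ e + b ≤ B ∧ e + c ≤ B) ∧ (e + a + b ≤ B ∨ e + a + c ≤ B ∨ e + b + c ≤ B) := by
  cases s1 <;> cases s2 <;> cases s3 <;> simp at h1 h2 <;> omega

def Base (a b c d B : ℕ) : Prop :=
  b + c + d ≤ B ∧ a ≤ B ∨ a + c + d ≤ B ∧ b ≤ B ∨ a + b + d ≤ B ∧ c ≤ B ∨ a + b + c ≤ B ∧ d ≤ B ∨
    a + b ≤ B ∧ c + d ≤ B ∨ a + c ≤ B ∧ b + d ≤ B ∨ a + d ≤ B ∧ b + c ≤ B

lemma core (a b c d ka kb kc kd B : ℕ) (hB : 2 * B ≤ a + b + c + d + 5) (hb : Base a b c d B)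
    (x : a ≤ b) (y : a ≤ c) (z : a ≤ d) (q0 : a ≤ 4 * ka + 3) (q1 : b ≤ 4 * kb + 3)
    (q2 : c ≤ 4 * kc + 3) (q3 : d ≤ 4 * kd + 3) (a1 : ka + b ≤ B) (a2 : ka + c ≤ B)
    (a3 : ka + d ≤ B) (b1 : kb + a ≤ B) (b2 : kb + c ≤ B) (b3 : kb + d ≤ B) (c1 : kc + a ≤ B)
    (c2 : kc + b ≤ B) (c3 : kc + d ≤ B) (e1 : kd + a ≤ B) (e2 : kd + b ≤ B) (e3 : kd + c ≤ B)
    (h : ka + b + c ≤ B ∨ ka + b + d ≤ B ∨ ka + c + d ≤ B) : a + b + c + d ≤ 1000 := by
  rcases hb with ⟨u, v⟩ | ⟨u, v⟩ | ⟨u, v⟩ | ⟨u, v⟩ | ⟨u, v⟩ | ⟨u, v⟩ | ⟨u, v⟩ <;>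
    rcases h with h | h | h <;> linarith

lemma bound (m0 m1 m2 m3 B : ℕ) (hB : 2 * B ≤ m0 + m1 + m2 + m3 + 5)
    (H : ∀ j, ∃ s0 s1 s2 s3 : Bool,
      T j 0 m0 s0 + T j 1 m1 s1 + T j 2 m2 s2 + T j 3 m3 s3 ≤ B ∧
      T j 0 m0 (!s0) + T j 1 m1 (!s1) + T j 2 m2 (!s2) + T j 3 m3 (!s3) ≤ B) :
    m0 + m1 + m2 + m3 ≤ 1000 := by
  obtain ⟨s0, s1, s2, s3, h1, h2⟩ := H 0
  have g0 := three m1 m2 m3 (m0 / 4) B s1 s2 s3 (by simpa [T] using h1) (by simpa [T] using h2)
  clear h1 h2
  obtain ⟨s0, s1, s2, s3, h1, h2⟩ := H 1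
  have g1 := three m0 m2 m3 (m1 / 4) B s0 s2 s3 (by simp [T] at h1 ⊢; omega)
      (by simp [T] at h2 ⊢; omega)
  clear h1 h2
  obtain ⟨s0, s1, s2, s3, h1, h2⟩ := H 2
  have g2 := three m0 m1 m3 (m2 / 4) B s0 s1 s3 (by simp [T] at h1 ⊢; omega)
      (by simp [T] at h2 ⊢; omega)
  clear h1 h2
  obtain ⟨s0, s1, s2, s3, h1, h2⟩ := H 3
  have g3 := three m0 m1 m2 (m3 / 4) B s0 s1 s2 (by simp [T] at h1 ⊢; omega)
      (by simp [T] at h2 ⊢; omega)
  clear h1 h2
  obtain ⟨s0, s1, s2, s3, h1, h2⟩ := H 4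
  clear H
  obtain ⟨⟨a1, a2, a3⟩, d0⟩ := g0
  obtain ⟨⟨b1, b2, b3⟩, d1⟩ := g1
  obtain ⟨⟨c1, c2, c3⟩, d2⟩ := g2
  obtain ⟨⟨e1, e2, e3⟩, d3⟩ := g3
  have hmin : (m0 ≤ m1 ∧ m0 ≤ m2 ∧ m0 ≤ m3) ∨ (m1 ≤ m0 ∧ m1 ≤ m2 ∧ m1 ≤ m3) ∨
      (m2 ≤ m0 ∧ m2 ≤ m1 ∧ m2 ≤ m3) ∨ (m3 ≤ m0 ∧ m3 ≤ m1 ∧ m3 ≤ m2) := by
    clear * -; omega
  have q0 : m0 ≤ 4 * (m0 / 4) + 3 := by clear * -; omega
  have q1 : m1 ≤ 4 * (m1 / 4) + 3 := by clear * -; omega
  have q2 : m2 ≤ 4 * (m2 / 4) + 3 := by clear * -; omega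
  have q3 : m3 ≤ 4 * (m3 / 4) + 3 := by clear * -; omega
  generalize m0 / 4 = k0 at *
  generalize m1 / 4 = k1 at *
  generalize m2 / 4 = k2 at *
  generalize m3 / 4 = k3 at *
  have hb : Base m0 m1 m2 m3 B := by
    clear * - h1 h2
    unfold Base
    cases s0 <;> cases s1 <;> cases s2 <;> cases s3 <;> simp [T] at h1 h2 <;> omega
  clear h1 h2
  rcases hmin with ⟨x, y, z⟩ | ⟨x, y, z⟩ | ⟨x, y, z⟩ | ⟨x, y, z⟩
  · exact core m0 m1 m2 m3 k0 k1 k2 k3 B hB hb x y z q0 q1 q2 q3 a1 a2 a3 b1 b2 b3 c1 c2 c3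
      e1 e2 e3 d0
  · have := core m1 m0 m2 m3 k1 k0 k2 k3 B (by linarith)
      (by clear * - hb; unfold Base at *; omega) x y z q1 q0 q2 q3 b1 b2 b3 a1 a2 a3 c2 c1 c3
      e2 e1 e3 d1
    linarith
  · have := core m2 m0 m1 m3 k2 k0 k1 k3 B (by linarith)
      (by clear * - hb; unfold Base at *; omega) x y z q2 q0 q1 q3 c1 c2 c3 a2 a1 a3 b2 b1 b3
      e3 e1 e2 d2
    linarith
  · have := core m3 m0 m1 m2 k3 k0 k1 k2 B (by linarith)
      (by clear * - hb; unfold Base at *; omega) x y z q3 q0 q1 q2 e1 e2 e3 a3 a1 a2 b3 b1 b2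
      c3 c1 c2 d3
    linarith

lemma small {n : ℕ} (h2 : 2 ≤ n) (h4 : n ≤ 4) {m : Fin n → ℕ} (h : EqChoosable (stars m)) :
    ∑ i, m i ≤ 1000 := by
  have H := adv h
  interval_cases n
  · simp only [Fin.sum_univ_two] at H ⊢
    refine bound (m 0) (m 1) 0 0 ((m 0 + 1 + (m 1 + 1) + 1) / 2) ?_ fun j => ?_
    swap
    · obtain ⟨s, hs⟩ := H j
      exact ⟨s 0, s 1, true, true, by simpa [show ∀ i s, T j i 0 s = 0 by simp [T]] using hs⟩
    · omega
  · simp only [Fin.sum_univ_three] at H ⊢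
    refine bound (m 0) (m 1) (m 2) 0 ((m 0 + 1 + (m 1 + 1) + (m 2 + 1) + 1) / 2) ?_ fun j => ?_
    swap
    · obtain ⟨s, hs⟩ := H j
      exact ⟨s 0, s 1, s 2, true, by simpa [show ∀ i s, T j i 0 s = 0 by simp [T]] using hs⟩
    · omega
  · simp only [Fin.sum_univ_four] at H ⊢
    refine bound (m 0) (m 1) (m 2) (m 3)
      ((m 0 + 1 + (m 1 + 1) + (m 2 + 1) + (m 3 + 1) + 1) / 2) ?_ fun j => ?_
    swap
    · obtain ⟨s, hs⟩ := H j
      exact ⟨s 0, s 1, s 2, s 3, hs⟩
    · omega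

theorem result : ∀ n : ℕ, 2 ≤ n → ((Good n).Finite ↔ n ≤ 4) := by
  intro n h2
  constructor
  · intro hf
    by_contra h4
    obtain ⟨r, rfl⟩ : ∃ r, n = r + 5 := ⟨n - 5, by omega⟩
    refine Set.infinite_of_injective_forall_mem (s := Good (r + 5))
      (f := fun t : ℕ => univ.val.map (ex r (t + 1)))
      (fun a b h => ?_) (fun t => ⟨_, ex_pos r _ (by omega), ex_good r _ (by omega), rfl⟩) hf
    have := congrArg Multiset.sum h
    change ∑ i, ex r (a + 1) i = ∑ i, ex r (b + 1) i at this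
    rw [ex_sum, ex_sum] at this
    omega
  · intro h4
    refine ((Set.Finite.pi' fun _ : Fin n => Set.finite_Iic 1000).image
      fun m : Fin n → ℕ => univ.val.map m).subset ?_
    rintro s ⟨m, -, h, rfl⟩
    exact ⟨m, fun i => (single_le_sum (fun _ _ => Nat.zero_le _) (mem_univ i)).trans
      (small h2 h4 h), rfl⟩

end Pool.Agent.Results.MP_0c0609_co.Iff
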